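import Pool.Agent.H388.IT.Main

set_option autoImplicit false
set_option linter.dupNamespace false

/-!
# MP_88b079_co: `tree(G) - 2 ≤ κ(G)` forces `c(G - S) ≤ |S| + 1` for every `S`
-/

namespace Pool.Agent.Results.MP_88b079_co.ComponentsAfterDeletion

open SimpleGraph Pool.Agent.H388.IT

/-- The largest number of vertices of an induced tree of `G`. -/
noncomputable def tree {V : Type} (G : SimpleGraph V) : ℕ :=
  sSup {n : ℕ | ∃ T : Finset V, (G.induce (T : Set V)).IsTree ∧ T.card = n}

/-- The vertex connectivity: the least size of a set `X` such that `G - X` is disconnected or has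
exactly one vertex. -/
noncomputable def kappa {V : Type} (G : SimpleGraph V) : ℕ :=
  sInf {n : ℕ | ∃ X : Finset V, (¬ (G.induce ((X : Set V)ᶜ)).Preconnected ∨
    Nat.card ((X : Set V)ᶜ : Set V) = 1) ∧ X.card = n}

/-- The number of connected components of `G - S`. -/
noncomputable def comps {V : Type} (G : SimpleGraph V) (S : Finset V) : ℕ :=
  Nat.card (G.induce ((S : Set V)ᶜ)).ConnectedComponent

/-- `v` lies in the component `C` of `G - S`. -/
def inC {V : Type} (G : SimpleGraph V) (S : Finset V)
    (C : (G.induce ((S : Set V)ᶜ)).ConnectedComponent) (v : V) : Prop :=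
  ∃ h : v ∈ ((S : Set V)ᶜ), (G.induce ((S : Set V)ᶜ)).connectedComponentMk ⟨v, h⟩ = C

theorem comps_inC {V : Type} (G : SimpleGraph V) (S : Finset V) :
    Comps G S (G.induce ((S : Set V)ᶜ)).ConnectedComponent (inC G S) where
  out := fun C v h hv => h.1 (Finset.mem_coe.2 hv)
  ex := fun v hv => ⟨_, fun h => hv (Finset.mem_coe.1 h), rfl⟩
  uniq := by
    rintro C D v ⟨h1, rfl⟩ ⟨h2, rfl⟩
    rfl
  adj := by
    rintro C D v w ⟨h1, rfl⟩ ⟨h2, rfl⟩ hvw
    apply ConnectedComponent.sound
    have h3 : (G.induce ((S : Set V)ᶜ)).Adj ⟨v, h1⟩ ⟨w, h2⟩ := hvw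
    exact h3.reachable
  ne := by
    intro C
    induction C using ConnectedComponent.ind with
    | h v => exact ⟨v.1, v.2, rfl⟩
  conn := by
    rintro C P ⟨v0, ⟨h0, rfl⟩, hP⟩ hstep v ⟨hv, hvC⟩
    have hr := (ConnectedComponent.exact hvC).symm
    rw [reachable_iff_reflTransGen] at hr
    have key : ∀ w, Relation.ReflTransGen (G.induce ((S : Set V)ᶜ)).Adj ⟨v0, h0⟩ w →
        P w.1 := by
      intro w hw
      induction hw with
      | refl => exact hP
      | @tail b c hb hbc ih =>
        refine hstep b.1 c.1 ⟨b.2, ?_⟩ ⟨c.2, ?_⟩ hbc ih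
        · apply ConnectedComponent.sound
          rw [reachable_comm, reachable_iff_reflTransGen]
          exact hb
        · apply ConnectedComponent.sound
          rw [reachable_comm, reachable_iff_reflTransGen]
          exact hb.tail hbc
    exact key _ hr

theorem tree_le {V : Type} [Fintype V] (G : SimpleGraph V) (T : Finset V)
    (hT : (G.induce (T : Set V)).IsTree) : T.card ≤ tree G := by
  refine le_csSup ⟨Fintype.card V, ?_⟩ ⟨T, hT, rfl⟩
  rintro n ⟨T', -, rfl⟩
  exact Finset.card_le_univ T'

theorem lt_kappa {V : Type} (G : SimpleGraph V) (X : Finset V) (hX : X.card < kappa G) :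
    (G.induce ((X : Set V)ᶜ)).Preconnected := by
  by_contra h
  exact Nat.notMem_of_lt_sInf hX ⟨X, Or.inl h, rfl⟩

theorem lt_kappa' {V : Type} (G : SimpleGraph V) (X : Finset V) (hX : X.card < kappa G) (x y : V)
    (hx : x ∉ X) (hy : y ∉ X) : Relation.ReflTransGen (fun p r => G.Adj p r ∧ r ∉ X) x y := by
  have h := lt_kappa G X hX ⟨x, fun h => hx (Finset.mem_coe.1 h)⟩
    ⟨y, fun h => hy (Finset.mem_coe.1 h)⟩
  rw [reachable_iff_reflTransGen] at h
  have key : ∀ w, Relation.ReflTransGen (G.induce ((X : Set V)ᶜ)).Adj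
      ⟨x, fun h => hx (Finset.mem_coe.1 h)⟩ w →
      Relation.ReflTransGen (fun p r => G.Adj p r ∧ r ∉ X) x w.1 := by
    intro w hw
    induction hw with
    | refl => exact Relation.ReflTransGen.refl
    | @tail b c _ h3 ih => exact ih.tail ⟨h3, fun h => c.2 (Finset.mem_coe.2 h)⟩
  exact key _ h

theorem kappa_pos {V : Type} [Fintype V] (G : SimpleGraph V) (hG : G.Connected)
    (hV : 1 < Fintype.card V) : 1 ≤ kappa G := by
  classical
  by_contra hcon
  have h0 : kappa G = 0 := by omega
  obtain ⟨v⟩ := hG.nonempty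
  have hne : {n : ℕ | ∃ X : Finset V, (¬ (G.induce ((X : Set V)ᶜ)).Preconnected ∨
      Nat.card ((X : Set V)ᶜ : Set V) = 1) ∧ X.card = n}.Nonempty := by
    refine ⟨_, Finset.univ.erase v, Or.inr ?_, rfl⟩
    have h1 : (((Finset.univ.erase v : Finset V) : Set V)ᶜ) = {v} := by
      ext x
      simp
    rw [h1]
    simp
  obtain ⟨X, hX, hX0⟩ := Nat.sInf_mem hne
  change X.card = kappa G at hX0
  rw [h0, Finset.card_eq_zero] at hX0
  subst hX0
  rcases hX with h | h
  · apply h
    have hp := hG.preconnected
    intro x y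
    have h1 := hp x.1 y.1
    rw [reachable_iff_reflTransGen] at h1 ⊢
    have key : ∀ z, Relation.ReflTransGen G.Adj x.1 z →
        Relation.ReflTransGen (G.induce (((∅ : Finset V) : Set V)ᶜ)).Adj x ⟨z, by simp⟩ := by
      intro z hz
      induction hz with
      | refl => exact Relation.ReflTransGen.refl
      | tail _ h3 ih => exact ih.tail h3
    exact key y.1 h1
  · rw [Finset.coe_empty, Set.compl_empty, Nat.card_univ, Nat.card_eq_fintype_card] at h
    omega

/-- If a connected graph `G` with more than one vertex satisfies `tree(G) - 2 ≤ κ(G)`, then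
`G - S` has at most `|S| + 1` components, for every set `S` of vertices. -/
theorem result (V : Type) [Fintype V] (G : SimpleGraph V) (hG : G.Connected)
    (hV : 1 < Fintype.card V) (h : (tree G : ℤ) - 2 ≤ kappa G) (S : Finset V) :
    comps G S ≤ S.card + 1 := by
  classical
  have : Fintype (G.induce ((S : Set V)ᶜ)).ConnectedComponent := Fintype.ofFinite _
  unfold comps
  rw [Nat.card_eq_fintype_card]
  refine bound hG (comps_inC G S) (kappa_pos G hG hV) (fun T hT => ?_)
    (fun X hX x y hx hy => lt_kappa' G X hX x y hx hy)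
  have := tree_le G T hT.isTree
  omega

end Pool.Agent.Results.MP_88b079_co.ComponentsAfterDeletion
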